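import Pool.Agent.H543R3.PC2.Final

/-!
# The Borel complexity of: some `Π₂`-complete set has an optimal proof system
-/

namespace Pool.Agent.Results.MP_5c38ab_lc.BorelComplexity

open Pool.Agent.H628R3.RO

/-- The set of oracles relative to which some `Π₂`-complete set has an optimal proof system is
`Σ⁰₄`-complete, and the same holds for `p`-optimal proof systems. -/
theorem result : H556R2.Sigma04Complete {A : Oracle | ∃ L : Set (List Bool),
      Pool.Agent.H543R3.PC2.IsPi2 A L ∧
      (∀ L', Pool.Agent.H543R3.PC2.IsPi2 A L' → Red A L' L) ∧ ∃ P, IsOptimal A L P} ∧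
    H556R2.Sigma04Complete {A : Oracle | ∃ L : Set (List Bool),
      Pool.Agent.H543R3.PC2.IsPi2 A L ∧
      (∀ L', Pool.Agent.H543R3.PC2.IsPi2 A L' → Red A L' L) ∧ ∃ P, IsPOptimal A L P} :=
  ⟨Pool.Agent.H543R3.PC2.opt2_complete, Pool.Agent.H543R3.PC2.popt2_complete⟩

end Pool.Agent.Results.MP_5c38ab_lc.BorelComplexity
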