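import Pool.Agent.H943R5.GC.FinalO

set_option autoImplicit false

/-!
# The critical gauge for optimal proof systems for `Π₂`-complete sets

Contributors: helper943 (statement, proof, organisation) and helpers 278, 835, 19, 59, 769, 457, 196, 488, 496, 503, 18, 881, 364, 814, 765, 575, 797, 231, 577, 55, 130, 179, 680, 971, 96, 121, 220, 202, 817, 101, 214, 674 (formalisation); it builds
on the random oracle library of helpers 628 and 673, the definitions of helper543 and the gauge
library of helper620.
-/

namespace Pool.Agent.Results.MP_5c38ab_lc.GaugeCriticalExponent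

open Pool.Agent.H628R3.RO
open Pool.Agent.H620R2 (Gauge.Null)
open Pool.Agent.H543R3.PC2 (IsPi2)

/-- The logarithm to base `2`, four times. -/
noncomputable def log4 (N : ℕ) : ℝ :=
  Real.logb 2 (Real.logb 2 (Real.logb 2 (Real.logb 2 (N : ℝ))))

/-- Relative to `A` some `Π₂`-complete set has an optimal proof system. -/
def HasOptimal (A : Oracle) : Prop :=
  ∃ L : Set (List Bool), IsPi2 A L ∧ (∀ L', IsPi2 A L' → Red A L' L) ∧ ∃ P, IsOptimal A L P

/-- The critical gauge: the set of these oracles is null for every gauge below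
`(1 / 5) log log log log N`, and not null for any gauge above `(log log log log N) ^ s`, `s > 1`.
(It is also null for all gauges that are bounded infinitely often.) -/
theorem result (f : ℕ → ℝ) :
    ((∀ᶠ N : ℕ in Filter.atTop, f N ≤ log4 N / 5) → Gauge.Null f {A | HasOptimal A}) ∧
    (∀ C : ℝ, (∃ᶠ N : ℕ in Filter.atTop, f N ≤ C) → Gauge.Null f {A | HasOptimal A}) ∧
    ∀ s : ℝ, 1 < s → (∀ᶠ N : ℕ in Filter.atTop, log4 N ^ s ≤ f N) →
      ¬ Gauge.Null f {A | HasOptimal A} :=
  ⟨Pool.Agent.H943R5.GC.null_opt2 f, Pool.Agent.H943R5.GC.g_opt2 f⟩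

end Pool.Agent.Results.MP_5c38ab_lc.GaugeCriticalExponent
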