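import Pool.Agent.H543R3.PC2.RandomSeq

set_option autoImplicit false

/-!
# Proof systems for `Π₂`-complete sets relative to a random oracle
-/

namespace Pool.Agent.Results.MP_5c38ab_lc.RandomOracle

open Pool.Agent.NPC Pool.Agent.H628R3.RO

/-- `Π₂` (of the polynomial hierarchy) relative to `A`. -/
def IsPi2 (A : Oracle) (L : Set (List Bool)) : Prop :=
  ∃ (V : List Bool → List Bool) (p : Polynomial ℕ), IsFP A V ∧ ∀ x, x ∈ L ↔
    ∀ u : List Bool, u.length ≤ p.eval x.length →
      ∃ v : List Bool, v.length ≤ p.eval x.length ∧ V (pairBits x (pairBits u v)) = [true]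

/-- For almost every oracle `A`: for every set `L` which is hard for `Π₂` (or only for `coNP`)
relative to `A`, and every proof system `P` for `L` relative to `A`, there is a polynomial-time
computable sequence `Z(1^n)` of elements of `L` whose `P`-proofs have, for infinitely many `n`,
exponential length. -/
theorem result : ∀ᵐ A ∂randomOracle, ∀ L : Set (List Bool),
    ((∀ L', IsPi2 A L' → Red A L' L) ∨ CoNPHardRel A L) →
    ∀ P, IsProofSystem A L P → ∃ Z, IsFP A Z ∧ (∀ x, Z x ∈ L) ∧
      ∃ k : ℕ, ∀ N, ∃ n, N ≤ n ∧ ∀ v, P v = Z (List.replicate n true) →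
        2 ^ n ≤ v.length ^ k := by
  filter_upwards [Pool.Agent.H543R3.PC2.random_seq] with A hA L hL
  refine hA L ?_
  rcases hL with hL | hL
  · exact fun L' hL' => hL L' (Pool.Agent.H543R3.PC2.isPiTwo_of_isCoNP hL')
  · exact hL

end Pool.Agent.Results.MP_5c38ab_lc.RandomOracle
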